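import Mathlib

/-!
# Counting lemma for unconditional sums over a simplicial complex

For a down-closed family `D` of finite sets and an up-closed subfamily `U` the weighted number of
sets `Q` such that `Q ∪ H ∈ D`, `Q ∩ H = ∅` for some `H ∈ U` is at most the weighted size of `U`.
-/

set_option autoImplicit false

namespace Pool.Agent.Unc

open Finset

section Kleitman

variable {ι : Type*} [DecidableEq ι]

/-- the neighbours of `U` : sets `Q` with `Q ∩ H = ∅`, `Q ∪ H ∈ D` for some `H ∈ U` -/
def qset (D U : Finset (Finset ι)) : Finset (Finset ι) :=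
  D.filter (fun Q => ∃ H ∈ U, Disjoint Q H ∧ Q ∪ H ∈ D)

/-- product weight -/
def wt (w : ι → ℕ) (s : Finset ι) : ℕ := ∏ i ∈ s, w i

theorem wt_insert (w : ι → ℕ) {a : ι} {s : Finset ι} (h : a ∉ s) :
    wt w (insert a s) = w a * wt w s := by
  unfold wt
  exact Finset.prod_insert h

theorem sum_split (w : ι → ℕ) (A : Finset (Finset ι)) (a : ι) :
    ∑ s ∈ A, wt w s =
      ∑ s ∈ A.nonMemberSubfamily a, wt w s + w a * ∑ s ∈ A.memberSubfamily a, wt w s := by
  have h1 : ∑ s ∈ A, wt w s = ∑ s ∈ A.filter (fun s => a ∉ s), wt w s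
      + ∑ s ∈ A.filter (fun s => ¬ a ∉ s), wt w s :=
    (Finset.sum_filter_add_sum_filter_not A (fun s => a ∉ s) (wt w)).symm
  rw [h1]
  congr 1
  rw [Finset.mul_sum]
  symm
  refine Finset.sum_bij (fun s _ => insert a s) ?_ ?_ ?_ ?_
  · intro s hs
    rw [Finset.mem_memberSubfamily] at hs
    simp [hs.1]
  · intro s hs t ht hst
    rw [Finset.mem_memberSubfamily] at hs ht
    have h2 := congrArg (fun u => Finset.erase u a) hst
    simpa [Finset.erase_insert hs.2, Finset.erase_insert ht.2] using h2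
  · intro s hs
    simp only [not_not, Finset.mem_filter] at hs
    refine ⟨s.erase a, ?_, Finset.insert_erase hs.2⟩
    rw [Finset.mem_memberSubfamily, Finset.insert_erase hs.2]
    exact ⟨hs.1, Finset.notMem_erase a s⟩
  · intro s hs
    rw [Finset.mem_memberSubfamily] at hs
    exact (wt_insert w hs.2).symm

theorem sum_qset_le (w : ι → ℕ) (hw : ∀ i, 1 ≤ w i) (V : Finset ι) :
    ∀ D U : Finset (Finset ι), (∀ F ∈ D, F ⊆ V) →
      (∀ F ∈ D, ∀ G, G ⊆ F → G ∈ D) → U ⊆ D →
      (∀ H ∈ U, ∀ H' ∈ D, H ⊆ H' → H' ∈ U) →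
      ∑ Q ∈ qset D U, wt w Q ≤ ∑ H ∈ U, wt w H := by
  induction V using Finset.induction_on with
  | empty =>
    intro D U hDV hD hUD hU
    rcases U.eq_empty_or_nonempty with h | ⟨H, hH⟩
    · subst h
      have : qset D ∅ = ∅ := by
        unfold qset
        simp
      rw [this]
    · have hH0 : H = ∅ := Finset.subset_empty.mp (hDV H (hUD hH))
      subst hH0
      have h1 : qset D U ⊆ U := by
        intro Q hQ
        unfold qset at hQ
        rw [Finset.mem_filter] at hQ
        have : Q = ∅ := Finset.subset_empty.mp (hDV Q hQ.1)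
        rw [this]; exact hH
      exact Finset.sum_le_sum_of_subset h1
  | insert a V haV ih =>
    intro D U hDV hD hUD hU
    set D0 := D.nonMemberSubfamily a with hD0
    set D1 := D.memberSubfamily a with hD1
    set U0 := U.nonMemberSubfamily a with hU0
    set U1 := U.memberSubfamily a with hU1
    have m0 : ∀ s, s ∈ D0 ↔ s ∈ D ∧ a ∉ s := fun s => Finset.mem_nonMemberSubfamily
    have m1 : ∀ s, s ∈ D1 ↔ insert a s ∈ D ∧ a ∉ s := fun s => Finset.mem_memberSubfamily
    have u0 : ∀ s, s ∈ U0 ↔ s ∈ U ∧ a ∉ s := fun s => Finset.mem_nonMemberSubfamily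
    have u1 : ∀ s, s ∈ U1 ↔ insert a s ∈ U ∧ a ∉ s := fun s => Finset.mem_memberSubfamily
    have hsub : ∀ s, s ∈ D → a ∉ s → s ⊆ V := by
      intro s hs has i hi
      have := hDV s hs hi
      rw [Finset.mem_insert] at this
      rcases this with h | h
      · exact absurd (h ▸ hi) has
      · exact h
    have hD10 : D1 ⊆ D0 := by
      intro s hs
      rw [m1] at hs
      rw [m0]
      exact ⟨hD _ hs.1 _ (Finset.subset_insert a s), hs.2⟩
    -- properties of the pieces
    have p0V : ∀ F ∈ D0, F ⊆ V := by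
      intro F hF
      rw [m0] at hF
      exact hsub F hF.1 hF.2
    have p1V : ∀ F ∈ D1, F ⊆ V := fun F hF => p0V F (hD10 hF)
    have p0D : ∀ F ∈ D0, ∀ G, G ⊆ F → G ∈ D0 := by
      intro F hF G hG
      rw [m0] at hF ⊢
      exact ⟨hD F hF.1 G hG, fun h => hF.2 (hG h)⟩
    have p1D : ∀ F ∈ D1, ∀ G, G ⊆ F → G ∈ D1 := by
      intro F hF G hG
      rw [m1] at hF ⊢
      exact ⟨hD _ hF.1 _ (Finset.insert_subset_insert a hG), fun h => hF.2 (hG h)⟩
    have q0 : U0 ⊆ D0 := by
      intro s hs
      rw [u0] at hs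
      rw [m0]
      exact ⟨hUD hs.1, hs.2⟩
    have q1 : U1 ⊆ D1 := by
      intro s hs
      rw [u1] at hs
      rw [m1]
      exact ⟨hUD hs.1, hs.2⟩
    have r0 : ∀ H ∈ U0, ∀ H' ∈ D0, H ⊆ H' → H' ∈ U0 := by
      intro H hH H' hH' hsb
      rw [u0] at hH ⊢
      rw [m0] at hH'
      exact ⟨hU H hH.1 H' hH'.1 hsb, hH'.2⟩
    have r1 : ∀ H ∈ U1, ∀ H' ∈ D1, H ⊆ H' → H' ∈ U1 := by
      intro H hH H' hH' hsb
      rw [u1] at hH ⊢
      rw [m1] at hH'
      exact ⟨hU _ hH.1 _ hH'.1 (Finset.insert_subset_insert a hsb), hH'.2⟩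
    have ih0 := ih D0 U0 p0V p0D q0 r0
    have ih1 := ih D1 U1 p1V p1D q1 r1
    set A := qset D0 U0 with hA
    set B := qset D1 U1 with hB
    set C := qset D1 (U0 ∩ D1) with hC
    have hCA : C ⊆ A := by
      intro Q hQ
      rw [hC] at hQ
      rw [hA]
      unfold qset at hQ ⊢
      rw [Finset.mem_filter] at hQ ⊢
      obtain ⟨hQ1, H, hH, hd, hun⟩ := hQ
      rw [Finset.mem_inter] at hH
      exact ⟨hD10 hQ1, H, hH.1, hd, hD10 hun⟩
    have hCB : C ⊆ B := by
      intro Q hQ
      rw [hC] at hQ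
      rw [hB]
      unfold qset at hQ ⊢
      rw [Finset.mem_filter] at hQ ⊢
      obtain ⟨hQ1, H, hH, hd, hun⟩ := hQ
      rw [Finset.mem_inter, u0, m1] at hH
      refine ⟨hQ1, H, ?_, hd, hun⟩
      rw [u1]
      exact ⟨hU H hH.1.1 _ hH.2.1 (Finset.subset_insert a H), hH.1.2⟩
    have hn : (qset D U).nonMemberSubfamily a ⊆ A ∪ B := by
      intro Q hQ
      rw [Finset.mem_nonMemberSubfamily] at hQ
      obtain ⟨hQ1, haQ⟩ := hQ
      unfold qset at hQ1
      rw [Finset.mem_filter] at hQ1
      obtain ⟨hQD, H, hH, hd, hun⟩ := hQ1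
      rw [Finset.mem_union]
      by_cases haH : a ∈ H
      · right
        have hins : insert a (Q ∪ H.erase a) = Q ∪ H := by
          rw [← Finset.union_insert, Finset.insert_erase haH]
        have hmem : Q ∪ H.erase a ∈ D1 := by
          rw [m1, hins]
          refine ⟨hun, ?_⟩
          rw [Finset.mem_union]
          rintro (h | h)
          · exact haQ h
          · exact Finset.notMem_erase a H h
        rw [hB]
        unfold qset
        rw [Finset.mem_filter]
        refine ⟨p1D _ hmem _ Finset.subset_union_left, H.erase a, ?_, ?_, hmem⟩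
        · rw [u1, Finset.insert_erase haH]
          exact ⟨hH, Finset.notMem_erase a H⟩
        · exact Finset.disjoint_of_subset_right (Finset.erase_subset a H) hd
      · left
        rw [hA]
        unfold qset
        rw [Finset.mem_filter, m0]
        refine ⟨⟨hQD, haQ⟩, H, ?_, hd, ?_⟩
        · rw [u0]; exact ⟨hH, haH⟩
        · rw [m0]
          refine ⟨hun, ?_⟩
          rw [Finset.mem_union]
          rintro (h | h)
          · exact haQ h
          · exact haH h
    have hm : (qset D U).memberSubfamily a ⊆ C := by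
      intro Q hQ
      rw [Finset.mem_memberSubfamily] at hQ
      obtain ⟨hQ1, haQ⟩ := hQ
      unfold qset at hQ1
      rw [Finset.mem_filter] at hQ1
      obtain ⟨hQD, H, hH, hd, hun⟩ := hQ1
      rw [Finset.disjoint_insert_left] at hd
      have hmem : Q ∪ H ∈ D1 := by
        rw [m1, ← Finset.insert_union]
        refine ⟨hun, ?_⟩
        rw [Finset.mem_union]
        rintro (h | h)
        · exact haQ h
        · exact hd.1 h
      rw [hC]
      unfold qset
      rw [Finset.mem_filter]
      refine ⟨p1D _ hmem _ Finset.subset_union_left, H, ?_, hd.2, hmem⟩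
      rw [Finset.mem_inter, u0]
      exact ⟨⟨hH, hd.1⟩, p1D _ hmem _ Finset.subset_union_right⟩
    -- sums
    have e1 := sum_split w (qset D U) a
    have e2 := sum_split w U a
    have s1 : ∑ s ∈ (qset D U).nonMemberSubfamily a, wt w s ≤ ∑ s ∈ A ∪ B, wt w s :=
      Finset.sum_le_sum_of_subset hn
    have s2 : ∑ s ∈ (qset D U).memberSubfamily a, wt w s ≤ ∑ s ∈ C, wt w s :=
      Finset.sum_le_sum_of_subset hm
    have s3 : ∑ s ∈ A ∪ B, wt w s + ∑ s ∈ A ∩ B, wt w s = ∑ s ∈ A, wt w s + ∑ s ∈ B, wt w s :=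
      Finset.sum_union_inter
    have s4 : ∑ s ∈ C, wt w s ≤ ∑ s ∈ A ∩ B, wt w s :=
      Finset.sum_le_sum_of_subset (Finset.subset_inter hCA hCB)
    have s5 : ∑ s ∈ C, wt w s ≤ ∑ s ∈ B, wt w s := Finset.sum_le_sum_of_subset hCB
    obtain ⟨k, hk⟩ := Nat.exists_eq_add_of_le (hw a)
    rw [e1, e2, hk]
    have s6 : (1 + k) * ∑ s ∈ (qset D U).memberSubfamily a, wt w s
        ≤ (1 + k) * ∑ s ∈ C, wt w s := Nat.mul_le_mul_left _ s2
    have s7 : (1 + k) * ∑ s ∈ C, wt w s = ∑ s ∈ C, wt w s + k * ∑ s ∈ C, wt w s := by ring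
    have s8 : k * ∑ s ∈ C, wt w s ≤ k * ∑ s ∈ B, wt w s := Nat.mul_le_mul_left _ s5
    have s9 : (1 + k) * ∑ s ∈ B, wt w s ≤ (1 + k) * ∑ s ∈ U1, wt w s := Nat.mul_le_mul_left _ ih1
    have s10 : (1 + k) * ∑ s ∈ B, wt w s = ∑ s ∈ B, wt w s + k * ∑ s ∈ B, wt w s := by ring
    linarith

end Kleitman

section Greedy

variable {ι : Type*} [LinearOrder ι] [Fintype ι]

/-- the blocked vertices of `H` -/
def lam (D : Finset (Finset ι)) (H : Finset ι) : Finset ι :=
  univ.filter (fun z => insert z (H.filter (fun y => y < z)) ∉ D)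

theorem mem_lam {D : Finset (Finset ι)} {H : Finset ι} {z : ι} :
    z ∈ lam D H ↔ insert z (H.filter (fun y => y < z)) ∉ D := by
  unfold lam
  simp

theorem lam_mono {D : Finset (Finset ι)} (hD : ∀ F ∈ D, ∀ G, G ⊆ F → G ∈ D)
    {H H' : Finset ι} (h : H ⊆ H') : lam D H ⊆ lam D H' := by
  intro z hz
  rw [mem_lam] at hz ⊢
  intro hz'
  exact hz (hD _ hz' _ (Finset.insert_subset_insert z (Finset.filter_subset_filter _ h)))

theorem lam_disjoint {D : Finset (Finset ι)} (hD : ∀ F ∈ D, ∀ G, G ⊆ F → G ∈ D)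
    {H F : Finset ι} (hF : F ∈ D) (h : H ⊆ F) {z : ι} (hz : z ∈ lam D H) : z ∉ F := by
  intro hzF
  rw [mem_lam] at hz
  apply hz
  apply hD F hF
  intro y hy
  rw [Finset.mem_insert] at hy
  rcases hy with h1 | h1
  · rw [h1]; exact hzF
  · exact h (Finset.mem_of_mem_filter y h1)

/-- greedy decoding -/
theorem greedy_inj {D : Finset (Finset ι)} (hD : ∀ F ∈ D, ∀ G, G ⊆ F → G ∈ D)
    {H H' L L' : Finset ι} (hH : H ∈ D) (hH' : H' ∈ D) (hL : L ⊆ lam D H) (hL' : L' ⊆ lam D H')
    (hX : H ∪ L = H' ∪ L') : H = H' ∧ L = L' := by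
  have key : ∀ z : ι, z ∈ H ↔ z ∈ H' := by
    intro z
    induction z using WellFoundedLT.induction with
    | ind z ih =>
      have hf : H.filter (fun y => y < z) = H'.filter (fun y => y < z) := by
        ext y
        simp only [Finset.mem_filter]
        constructor
        · rintro ⟨h1, h2⟩
          exact ⟨(ih y h2).mp h1, h2⟩
        · rintro ⟨h1, h2⟩
          exact ⟨(ih y h2).mpr h1, h2⟩
      constructor
      · intro hz
        have : z ∈ H' ∪ L' := by rw [← hX]; exact Finset.mem_union_left _ hz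
        rcases Finset.mem_union.mp this with h | h
        · exact h
        · exfalso
          have h1 := mem_lam.mp (hL' h)
          rw [← hf] at h1
          apply h1
          apply hD H hH
          intro y hy
          rcases Finset.mem_insert.mp hy with h2 | h2
          · rw [h2]; exact hz
          · exact Finset.mem_of_mem_filter y h2
      · intro hz
        have : z ∈ H ∪ L := by rw [hX]; exact Finset.mem_union_left _ hz
        rcases Finset.mem_union.mp this with h | h
        · exact h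
        · exfalso
          have h1 := mem_lam.mp (hL h)
          rw [hf] at h1
          apply h1
          apply hD H' hH'
          intro y hy
          rcases Finset.mem_insert.mp hy with h2 | h2
          · rw [h2]; exact hz
          · exact Finset.mem_of_mem_filter y h2
  have hHH : H = H' := Finset.ext key
  refine ⟨hHH, ?_⟩
  subst hHH
  ext z
  constructor
  · intro hz
    have h1 : z ∉ H := lam_disjoint hD hH (Finset.Subset.refl H) (hL hz)
    have : z ∈ H ∪ L' := by rw [← hX]; exact Finset.mem_union_right _ hz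
    rcases Finset.mem_union.mp this with h | h
    · exact absurd h h1
    · exact h
  · intro hz
    have h1 : z ∉ H := lam_disjoint hD hH (Finset.Subset.refl H) (hL' hz)
    have : z ∈ H ∪ L := by rw [hX]; exact Finset.mem_union_right _ hz
    rcases Finset.mem_union.mp this with h | h
    · exact absurd h h1
    · exact h

/-- the faces whose blocked set contains `L` -/
def upL (D : Finset (Finset ι)) (L : Finset ι) : Finset (Finset ι) :=
  D.filter (fun H => L ⊆ lam D H)

theorem count_le (w : ι → ℕ) (hw : ∀ i, 1 ≤ w i) (D : Finset (Finset ι))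
    (hD : ∀ F ∈ D, ∀ G, G ⊆ F → G ∈ D) :
    ∑ L : Finset ι, ∑ Q ∈ qset D (upL D L), wt w Q ≤ ∏ i, (1 + w i) := by
  have h1 : ∀ L : Finset ι, ∑ Q ∈ qset D (upL D L), wt w Q ≤ ∑ H ∈ upL D L, wt w (H ∪ L) := by
    intro L
    refine le_trans (sum_qset_le w hw univ D (upL D L) (fun F _ => Finset.subset_univ F) hD
      (Finset.filter_subset _ _) ?_) ?_
    · intro H hH H' hH' hsub
      unfold upL at hH ⊢
      rw [Finset.mem_filter] at hH ⊢
      exact ⟨hH', hH.2.trans (lam_mono hD hsub)⟩
    · apply Finset.sum_le_sum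
      intro H _
      unfold wt
      exact Finset.prod_le_prod_of_subset_of_one_le' Finset.subset_union_left
        (fun i _ _ => hw i)
  refine le_trans (Finset.sum_le_sum (fun L _ => h1 L)) ?_
  rw [Finset.sum_sigma']
  have h2 : ∏ i, (1 + w i) = ∑ X : Finset ι, wt w X := by
    rw [Finset.prod_one_add]
    simp [wt]
  rw [h2]
  have hinj : Set.InjOn (fun x : (_ : Finset ι) × Finset ι => x.2 ∪ x.1)
      ((univ : Finset (Finset ι)).sigma (fun L => upL D L) : Set _) := by
    rintro ⟨L, H⟩ hx ⟨L', H'⟩ hx' hxx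
    simp only [Finset.coe_sigma, Set.mem_sigma_iff] at hx hx'
    have hx2 := hx.2
    have hx2' := hx'.2
    unfold upL at hx2 hx2'
    rw [Finset.mem_coe, Finset.mem_filter] at hx2 hx2'
    obtain ⟨e1, e2⟩ := greedy_inj hD hx2.1 hx2'.1 hx2.2 hx2'.2 hxx
    subst e1 e2
    rfl
  rw [← Finset.sum_image (f := fun X => wt w X)
    (g := fun x : (_ : Finset ι) × Finset ι => x.2 ∪ x.1) hinj]
  exact Finset.sum_le_sum_of_subset (Finset.subset_univ _)

end Greedy

end Pool.Agent.Unc
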