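import Pool.Agent.Unc.Comb
import Pool.Agent.Illum.Basic

/-!
# Covering number of a sum of convex bodies over a simplicial complex

`K = conv { x : x i ∈ B i for i ∈ F, x i = 0 for i ∉ F, F ∈ 𝓕 }` satisfies `c(K) ≤ ∏ c(B i)`.
-/

set_option autoImplicit false

namespace Pool.Agent.Unc

open Finset Set Filter Topology

/-- `c(K) ≤ N`. -/
def CovBy {E : Type*} [NormedAddCommGroup E] (K : Set E) (N : ℕ) : Prop :=
  ∃ T : Finset E, T.card ≤ N ∧ K ⊆ ⋃ t ∈ T, (fun x => t + x) '' interior K

section Body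

variable {E : Type*} [NormedAddCommGroup E]

theorem exists_translates {B : Set E} {n : ℕ} (h : CovBy B (n + 1)) :
    ∃ t : Fin (n + 1) → E, ∀ y ∈ B, ∃ j, y - t j ∈ interior B := by
  obtain ⟨T, hT, hc⟩ := h
  classical
  refine ⟨fun j => if hj : (j : ℕ) < T.card then (T.equivFin.symm ⟨j, hj⟩ : E) else 0, ?_⟩
  intro y hy
  have := hc hy
  simp only [Set.mem_iUnion] at this
  obtain ⟨s, hs, x, hx, hxy⟩ := this
  have hlt : ((T.equivFin ⟨s, hs⟩ : Fin T.card) : ℕ) < T.card := (T.equivFin ⟨s, hs⟩).2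
  refine ⟨⟨(T.equivFin ⟨s, hs⟩ : Fin T.card), lt_of_lt_of_le hlt hT⟩, ?_⟩
  simp only [hlt, dif_pos, Fin.eta, Equiv.symm_apply_apply]
  simp only at hxy
  rw [← hxy, add_sub_cancel_left]
  exact hx

variable [NormedSpace ℝ E]

theorem exists_kappa {B : Set E} {n : ℕ} (hB : IsCompact B)
    (t : Fin (n + 1) → E) (ht : ∀ y ∈ B, ∃ j, y - t j ∈ interior B) :
    ∃ κ : ℝ, 0 < κ ∧ ∀ y ∈ B, ∃ j, ∀ b ∈ B, y - t j + κ • b ∈ B := by
  obtain ⟨δ, hδ, hleb⟩ := lebesgue_number_lemma_of_metric (s := B)
    (c := fun j => {y : E | y - t j ∈ interior B}) hB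
    (fun j => isOpen_interior.preimage (by fun_prop)) (by
      intro y hy
      obtain ⟨j, hj⟩ := ht y hy
      exact Set.mem_iUnion.mpr ⟨j, hj⟩)
  obtain ⟨R, hR⟩ := hB.isBounded.exists_norm_le
  refine ⟨δ / (2 * (|R| + 1)), by positivity, ?_⟩
  intro y hy
  obtain ⟨j, hj⟩ := hleb y hy
  refine ⟨j, ?_⟩
  intro b hb
  have hb' : ‖b‖ ≤ |R| := (hR b hb).trans (le_abs_self R)
  have hmem : y + (δ / (2 * (|R| + 1))) • b ∈ Metric.ball y δ := by
    rw [mem_ball_iff_norm, add_sub_cancel_left, norm_smul, Real.norm_of_nonneg (by positivity)]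
    have h1 : δ / (2 * (|R| + 1)) * ‖b‖ ≤ δ / (2 * (|R| + 1)) * (|R| + 1) :=
      mul_le_mul_of_nonneg_left (by linarith) (by positivity)
    have h2 : δ / (2 * (|R| + 1)) * (|R| + 1) = δ / 2 := by
      have : |R| + 1 ≠ 0 := by positivity
      field_simp
    linarith
  have h3 : y + (δ / (2 * (|R| + 1))) • b - t j ∈ interior B := hj hmem
  have h4 : y - t j + (δ / (2 * (|R| + 1))) • b = y + (δ / (2 * (|R| + 1))) • b - t j := by abel
  rw [h4]
  exact interior_subset h3

theorem exists_C {B : Set E} {n : ℕ} (h0 : (0 : E) ∈ interior B) (t : Fin (n + 1) → E) :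
    ∃ C : ℝ, 0 < C ∧ ∀ j, -(C⁻¹ • t j) ∈ B := by
  rw [mem_interior_iff_mem_nhds, Metric.mem_nhds_iff] at h0
  obtain ⟨r, hr, hball⟩ := h0
  have hs : ∀ j, ‖t j‖ ≤ ∑ k, ‖t k‖ := fun j =>
    Finset.single_le_sum (f := fun k => ‖t k‖) (fun k _ => norm_nonneg _) (Finset.mem_univ j)
  have hs0 : 0 ≤ ∑ k, ‖t k‖ := Finset.sum_nonneg (fun k _ => norm_nonneg _)
  refine ⟨((∑ k, ‖t k‖) + 1) / r, by positivity, ?_⟩
  intro j
  apply hball
  rw [mem_ball_zero_iff, norm_neg, norm_smul, norm_inv, Real.norm_of_nonneg (by positivity),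
    inv_div, div_mul_eq_mul_div, div_lt_iff₀ (by positivity)]
  have := hs j
  nlinarith

end Body

section Numeric

variable {ι : Type*} [Fintype ι] [LinearOrder ι]

/-- the position of `i` in the order attached to `(Q, L)`: `Q` first, then the rest in decreasing
order, then `L`. -/
def rk (Q L : Finset ι) (i : ι) : ℕ :=
  if i ∈ Q then 0 else if i ∈ L then Fintype.card ι + 1
    else 1 + (univ.filter (fun y => i < y)).card

theorem rk_le {Q L : Finset ι} {i : ι} (h : i ∉ L) : rk Q L i + 1 ≤ Fintype.card ι + 1 := by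
  unfold rk
  split_ifs with h1
  · omega
  · have : (univ.filter (fun y => i < y)).card < Fintype.card ι := by
      rw [← Finset.card_univ]
      apply Finset.card_lt_card
      rw [Finset.ssubset_univ_iff]
      intro he
      have : i ∈ univ.filter (fun y => i < y) := by rw [he]; exact Finset.mem_univ i
      simp at this
    omega

theorem rk_lt {Q L : Finset ι} {i z : ι} (hi : i ∉ L) (hzQ : z ∉ Q) (h : i ∈ Q ∨ z < i) :
    rk Q L i + 1 ≤ rk Q L z := by
  by_cases hzL : z ∈ L
  · have h1 : rk Q L z = Fintype.card ι + 1 := by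
      unfold rk
      rw [if_neg hzQ, if_pos hzL]
    rw [h1]
    exact rk_le hi
  · have h1 : rk Q L z = 1 + (univ.filter (fun y => z < y)).card := by
      unfold rk
      rw [if_neg hzQ, if_neg hzL]
    rw [h1]
    by_cases hiQ : i ∈ Q
    · have h2 : rk Q L i = 0 := by
        unfold rk
        rw [if_pos hiQ]
      rw [h2]
      omega
    · have h2 : rk Q L i = 1 + (univ.filter (fun y => i < y)).card := by
        unfold rk
        rw [if_neg hiQ, if_neg hi]
      have hzi : z < i := h.resolve_left hiQ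
      have h3 : (univ.filter (fun y => i < y)).card < (univ.filter (fun y => z < y)).card := by
        apply Finset.card_lt_card
        rw [Finset.ssubset_iff_of_subset]
        · exact ⟨i, by simpa using hzi, by simp⟩
        · intro y hy
          rw [Finset.mem_filter] at hy ⊢
          exact ⟨hy.1, hzi.trans hy.2⟩
      rw [h2]
      omega

/-- the weight inequality -/
theorem key_ineq {D : Finset (Finset ι)} (hD : ∀ F ∈ D, ∀ G, G ⊆ F → G ∈ D)
    (hsing : ∀ z, {z} ∈ D) {Q H : Finset ι} (hF : Q ∪ H ∈ D) (m : ι → ℝ)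
    (hm : ∀ i, 0 ≤ m i) (hmax : ∀ G ∈ D, ∑ i ∈ G, m i ≤ ∑ i ∈ Q ∪ H, m i)
    {δ : ℝ} (hδ : 0 < δ) (hδ1 : δ < 1) {z : ι} (hz : z ∉ Q ∪ H) :
    δ ^ rk Q (lam D H) z * m z ≤ δ * ∑ i ∈ Q ∪ H, δ ^ rk Q (lam D H) i * m i := by
  have hFL : ∀ i ∈ Q ∪ H, i ∉ lam D H := fun i hi hl =>
    lam_disjoint hD hF Finset.subset_union_right hl hi
  have hzQ : z ∉ Q := fun h => hz (Finset.mem_union_left _ h)
  -- a subset `A` of the face paying for `z`
  have main : ∀ A : Finset ι, A ⊆ Q ∪ H → m z ≤ ∑ i ∈ A, m i →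
      (∀ i ∈ A, rk Q (lam D H) i + 1 ≤ rk Q (lam D H) z) →
      δ ^ rk Q (lam D H) z * m z ≤ δ * ∑ i ∈ Q ∪ H, δ ^ rk Q (lam D H) i * m i := by
    intro A hA h1 h2
    calc δ ^ rk Q (lam D H) z * m z ≤ δ ^ rk Q (lam D H) z * ∑ i ∈ A, m i :=
          mul_le_mul_of_nonneg_left h1 (by positivity)
      _ = ∑ i ∈ A, δ ^ rk Q (lam D H) z * m i := by rw [Finset.mul_sum]
      _ ≤ ∑ i ∈ A, δ * (δ ^ rk Q (lam D H) i * m i) := by
          apply Finset.sum_le_sum
          intro i hi
          have h3 : δ ^ rk Q (lam D H) z ≤ δ ^ (rk Q (lam D H) i + 1) :=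
            pow_le_pow_of_le_one hδ.le hδ1.le (h2 i hi)
          rw [pow_succ] at h3
          have := mul_le_mul_of_nonneg_right h3 (hm i)
          linarith
      _ = δ * ∑ i ∈ A, δ ^ rk Q (lam D H) i * m i := by rw [Finset.mul_sum]
      _ ≤ δ * ∑ i ∈ Q ∪ H, δ ^ rk Q (lam D H) i * m i := by
          apply mul_le_mul_of_nonneg_left _ hδ.le
          exact Finset.sum_le_sum_of_subset_of_nonneg hA
            (fun i _ _ => mul_nonneg (by positivity) (hm i))
  by_cases hzL : z ∈ lam D H
  · refine main (Q ∪ H) (Finset.Subset.refl _) ?_ ?_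
    · have := hmax {z} (hsing z)
      simpa using this
    · intro i hi
      have h1 : rk Q (lam D H) z = Fintype.card ι + 1 := by
        unfold rk
        rw [if_neg hzQ, if_pos hzL]
      rw [h1]
      exact rk_le (hFL i hi)
  · set A0 := H.filter (fun y => y < z) with hA0
    have hA0F : A0 ⊆ Q ∪ H := (Finset.filter_subset _ _).trans Finset.subset_union_right
    have hins : insert z A0 ∈ D := by
      by_contra hcon
      exact hzL (mem_lam.mpr hcon)
    have hzA0 : z ∉ A0 := fun h => hz (hA0F h)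
    refine main ((Q ∪ H) \ A0) Finset.sdiff_subset ?_ ?_
    · have h1 := hmax _ hins
      rw [Finset.sum_insert hzA0] at h1
      have h2 := Finset.sum_sdiff (f := m) hA0F
      linarith
    · intro i hi
      rw [Finset.mem_sdiff] at hi
      refine rk_lt (hFL i hi.1) hzQ ?_
      by_cases hiQ : i ∈ Q
      · exact Or.inl hiQ
      · right
        have hiH : i ∈ H := (Finset.mem_union.mp hi.1).resolve_left hiQ
        by_contra hcon
        have hne : i ≠ z := fun h => hz (h ▸ hi.1)
        have hlt : i < z := lt_of_le_of_ne (not_lt.mp hcon) hne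
        exact hi.2 (Finset.mem_filter.mpr ⟨hiH, hlt⟩)

end Numeric

section Main

variable {ι : Type*} [Fintype ι] [LinearOrder ι]
variable {E : ι → Type*} [∀ i, NormedAddCommGroup (E i)] [∀ i, NormedSpace ℝ (E i)]

/-- the generating points -/
def gen (FF : Set (Finset ι)) (B : ∀ i, Set (E i)) : Set (∀ i, E i) :=
  {x | ∃ F ∈ FF, (∀ i ∈ F, x i ∈ B i) ∧ ∀ i, i ∉ F → x i = 0}

/-- the direction attached to `(Q, L)` and the labels `j` -/
noncomputable def dir {w : ι → ℕ} (t : ∀ i, Fin (w i + 1) → E i) (δ : ℝ) (Q L : Finset ι)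
    (j : ∀ i, Fin (w i + 1)) : ∀ i, E i :=
  fun i => -(δ ^ rk Q L i • t i (j i))

theorem apply_eq_sum (f : (∀ i, E i) →L[ℝ] ℝ) (x : ∀ i, E i) :
    f x = ∑ i, f (Pi.single i (x i)) := by
  conv_lhs => rw [← Finset.univ_sum_single x]
  rw [map_sum]

open scoped Classical in
/-- the down-closure of the family -/
noncomputable def dcl (FF : Set (Finset ι)) : Finset (Finset ι) :=
  univ.filter (fun G => ∃ F ∈ FF, G ⊆ F)

theorem mem_dcl {FF : Set (Finset ι)} {G : Finset ι} : G ∈ dcl FF ↔ ∃ F ∈ FF, G ⊆ F := by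
  unfold dcl
  simp

theorem dcl_lower (FF : Set (Finset ι)) : ∀ F ∈ dcl FF, ∀ G, G ⊆ F → G ∈ dcl FF := by
  intro F hF G hG
  rw [mem_dcl] at hF ⊢
  obtain ⟨F', h1, h2⟩ := hF
  exact ⟨F', h1, hG.trans h2⟩

/-- the direction illuminates every point of the face -/
theorem dir_neg {FF : Set (Finset ι)} {B : ∀ i, Set (E i)}
    (hBc : ∀ i, IsCompact (B i)) (h0 : ∀ i, (0 : E i) ∈ interior (B i))
    (hcov : ∀ i, ∃ F ∈ FF, i ∈ F) {w : ι → ℕ} (t : ∀ i, Fin (w i + 1) → E i)
    {κ C : ℝ} (hC0 : 0 < C) (hC : ∀ i j, -(C⁻¹ • t i j) ∈ B i)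
    {δ : ℝ} (hδ : 0 < δ) (hδ1 : δ < 1) (hδ2 : C * Fintype.card ι * δ < κ)
    {y : ∀ i, E i} {F : Finset ι} (hF : F ∈ FF) (hyF : ∀ i ∈ F, y i ∈ B i)
    (hy0 : ∀ i, i ∉ F → y i = 0) (j : ∀ i, Fin (w i + 1))
    (hj : ∀ i ∈ F, ∀ b ∈ B i, y i - t i (j i) + κ • b ∈ B i)
    (f : (∀ i, E i) →L[ℝ] ℝ) (hf0 : f ≠ 0) (hfm : ∀ z ∈ gen FF B, f z ≤ f y) :
    f (dir t δ (F.filter (fun i => j i ≠ 0))
      (lam (dcl FF) (F.filter (fun i => j i = 0))) j) < 0 := by
  classical
  set Q := F.filter (fun i => j i ≠ 0) with hQ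
  set H := F.filter (fun i => j i = 0) with hH
  have hQH : Q ∪ H = F := by
    rw [hQ, hH, Finset.union_comm]
    exact Finset.filter_union_filter_not_eq (fun i => j i = 0) F
  set D := dcl FF with hD
  have hDl : ∀ F ∈ D, ∀ G, G ⊆ F → G ∈ D := dcl_lower FF
  have hsing : ∀ z, {z} ∈ D := by
    intro z
    obtain ⟨F', h1, h2⟩ := hcov z
    exact mem_dcl.mpr ⟨F', h1, Finset.singleton_subset_iff.mpr h2⟩
  have hFD : F ∈ D := mem_dcl.mpr ⟨F, hF, Finset.Subset.refl F⟩
  have hB0 : ∀ i, (0 : E i) ∈ B i := fun i => interior_subset (h0 i)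
  -- maximisers
  have hb : ∀ i, ∃ b ∈ B i, ∀ b' ∈ B i, f (Pi.single i b') ≤ f (Pi.single i b) := by
    intro i
    have hcont : Continuous (fun b : E i => f (Pi.single i b)) :=
      f.continuous.comp (continuous_single i)
    obtain ⟨b, hb, hmax⟩ := (hBc i).exists_isMaxOn ⟨0, hB0 i⟩ hcont.continuousOn
    exact ⟨b, hb, fun b' hb' => isMaxOn_iff.mp hmax b' hb'⟩
  choose b hbB hbmax using hb
  set m : ι → ℝ := fun i => f (Pi.single i (b i)) with hm_def
  have hsing0 : ∀ i, f (Pi.single i (0 : E i)) = 0 := by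
    intro i
    rw [Pi.single_zero, map_zero]
  have hm : ∀ i, 0 ≤ m i := by
    intro i
    have := hbmax i 0 (hB0 i)
    rw [hsing0] at this
    exact this
  -- value at `y`
  have hfy : f y = ∑ i ∈ F, f (Pi.single i (y i)) := by
    rw [apply_eq_sum]
    symm
    apply Finset.sum_subset (Finset.subset_univ F)
    intro i _ hi
    rw [hy0 i hi, hsing0]
  have hG : ∀ G ∈ D, ∑ i ∈ G, m i ≤ f y := by
    intro G hGD
    obtain ⟨F', hF', hGF'⟩ := mem_dcl.mp hGD
    set p : ∀ i, E i := fun i => if i ∈ G then b i else 0 with hp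
    have hpg : p ∈ gen FF B := by
      refine ⟨F', hF', ?_, ?_⟩
      · intro i _
        rw [hp]
        simp only
        split_ifs
        · exact hbB i
        · exact hB0 i
      · intro i hi
        rw [hp]
        simp only
        rw [if_neg (fun h => hi (hGF' h))]
    have h1 := hfm p hpg
    have h2 : f p = ∑ i ∈ G, m i := by
      rw [apply_eq_sum]
      symm
      have h3 : ∑ i ∈ G, m i = ∑ i ∈ G, f (Pi.single i (p i)) := by
        apply Finset.sum_congr rfl
        intro i hi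
        rw [hp]
        simp only
        rw [if_pos hi]
      rw [h3]
      apply Finset.sum_subset (Finset.subset_univ G)
      intro i _ hi
      have : p i = 0 := by
        rw [hp]
        simp only
        rw [if_neg hi]
      rw [this, hsing0]
    rw [h2] at h1
    exact h1
  have hyle : ∀ i ∈ F, f (Pi.single i (y i)) ≤ m i := fun i hi => hbmax i (y i) (hyF i hi)
  have hsumle : f y ≤ ∑ i ∈ F, m i := by
    rw [hfy]
    exact Finset.sum_le_sum hyle
  have hyeq : ∀ i ∈ F, f (Pi.single i (y i)) = m i := by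
    have h1 : ∑ i ∈ F, f (Pi.single i (y i)) = ∑ i ∈ F, m i :=
      le_antisymm (by rw [← hfy]; exact hsumle) (by rw [← hfy]; exact hG F hFD)
    exact (Finset.sum_eq_sum_iff_of_le hyle).mp h1
  have hmax : ∀ G ∈ D, ∑ i ∈ G, m i ≤ ∑ i ∈ Q ∪ H, m i := by
    intro G hGD
    rw [hQH]
    exact (hG G hGD).trans hsumle
  -- some `m z` is positive
  have hpos : ∃ z, 0 < m z := by
    by_contra hcon
    push Not at hcon
    apply hf0
    have hz : ∀ i (u : E i), f (Pi.single i u) = 0 := by
      intro i u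
      have hmi : m i = 0 := le_antisymm (hcon i) (hm i)
      have h1 : ∀ b' ∈ B i, f (Pi.single i b') ≤ 0 := by
        intro b' hb'
        have := hbmax i b' hb'
        rw [← hmi]
        exact this
      have hnh := mem_interior_iff_mem_nhds.mp (h0 i)
      rw [Metric.mem_nhds_iff] at hnh
      obtain ⟨r, hr, hball⟩ := hnh
      have hc : 0 < r / (2 * (‖u‖ + 1)) := by positivity
      have hn : ‖(r / (2 * (‖u‖ + 1))) • u‖ < r := by
        rw [norm_smul, Real.norm_of_nonneg hc.le, div_mul_eq_mul_div, div_lt_iff₀ (by positivity)]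
        nlinarith [norm_nonneg u]
      have h2 := h1 _ (hball (mem_ball_zero_iff.mpr hn))
      have h3 := h1 _ (hball (mem_ball_zero_iff.mpr (by rw [norm_neg]; exact hn)))
      have hlin : ∀ (c : ℝ) (u : E i), f (Pi.single i (c • u)) = c * f (Pi.single i u) := by
        intro c u
        rw [Pi.single_smul, map_smul, smul_eq_mul]
      rw [hlin] at h2
      rw [← neg_smul, hlin] at h3
      nlinarith
    ext x
    rw [apply_eq_sum]
    simp only [hz, Finset.sum_const_zero]
    rfl
  obtain ⟨z₀, hz₀⟩ := hpos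
  set r := rk Q (lam D H) with hr
  set S : ℝ := ∑ i ∈ F, δ ^ r i * m i with hS
  have hSpos : 0 < S := by
    have h1 : 0 < ∑ i ∈ F, m i := by
      have := hmax {z₀} (hsing z₀)
      rw [Finset.sum_singleton, hQH] at this
      linarith
    obtain ⟨i, hi, hi0⟩ : ∃ i ∈ F, 0 < m i := by
      by_contra hcon
      push Not at hcon
      have := Finset.sum_nonpos hcon
      linarith
    exact Finset.sum_pos' (fun k _ => mul_nonneg (by positivity) (hm k))
      ⟨i, hi, by positivity⟩
  -- the value of `f` at the direction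
  have hlin : ∀ (i : ι) (c : ℝ) (u : E i), f (Pi.single i (-(c • u)))
      = -(c * f (Pi.single i u)) := by
    intro i c u
    rw [Pi.single_neg, map_neg, Pi.single_smul, map_smul, smul_eq_mul]
  have hval : f (dir t δ Q (lam D H) j) = ∑ i, -(δ ^ r i * f (Pi.single i (t i (j i)))) := by
    rw [apply_eq_sum]
    apply Finset.sum_congr rfl
    intro i _
    unfold dir
    rw [hlin]
  have hin : ∀ i ∈ F, -(δ ^ r i * f (Pi.single i (t i (j i)))) ≤ -(κ * (δ ^ r i * m i)) := by
    intro i hi
    have h1 := hbmax i _ (hj i hi (b i) (hbB i))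
    rw [Pi.single_add, Pi.single_sub, map_add, map_sub, Pi.single_smul, map_smul, smul_eq_mul,
      hyeq i hi] at h1
    have h2 : κ * m i ≤ f (Pi.single i (t i (j i))) := by
      have : f (Pi.single i (b i)) = m i := rfl
      rw [this] at h1
      linarith
    have h3 := mul_le_mul_of_nonneg_left h2 (pow_nonneg hδ.le (r i))
    linarith
  have hout : ∀ i, i ∉ F → -(δ ^ r i * f (Pi.single i (t i (j i)))) ≤ C * (δ * S) := by
    intro i hi
    have h1 := hbmax i _ (hC i (j i))
    rw [hlin] at h1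
    have h2 : -f (Pi.single i (t i (j i))) ≤ C * m i := by
      have h3 : C * -(C⁻¹ * f (Pi.single i (t i (j i)))) ≤ C * m i :=
        mul_le_mul_of_nonneg_left h1 hC0.le
      have h4 : C * -(C⁻¹ * f (Pi.single i (t i (j i)))) = -f (Pi.single i (t i (j i))) := by
        field_simp
      linarith
    have h3 : δ ^ r i * m i ≤ δ * S := by
      have := key_ineq hDl hsing (by rw [hQH]; exact hFD) m hm hmax hδ hδ1
        (z := i) (by rw [hQH]; exact hi)
      rw [hQH] at this
      exact this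
    have h4 := mul_le_mul_of_nonneg_left h2 (pow_nonneg hδ.le (r i))
    have h5 := mul_le_mul_of_nonneg_left h3 hC0.le
    linarith
  rw [hval, ← Finset.sum_add_sum_compl F]
  have hs1 : ∑ i ∈ F, -(δ ^ r i * f (Pi.single i (t i (j i)))) ≤ -(κ * S) := by
    refine (Finset.sum_le_sum hin).trans (le_of_eq ?_)
    rw [hS, Finset.mul_sum, Finset.sum_neg_distrib]
  have hs2 : ∑ i ∈ Fᶜ, -(δ ^ r i * f (Pi.single i (t i (j i))))
      ≤ Fintype.card ι * (C * (δ * S)) := by
    have h1 : ∑ i ∈ Fᶜ, -(δ ^ r i * f (Pi.single i (t i (j i))))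
        ≤ ∑ i ∈ Fᶜ, C * (δ * S) := by
      apply Finset.sum_le_sum
      intro i hi
      exact hout i (Finset.mem_compl.mp hi)
    refine h1.trans ?_
    rw [Finset.sum_const, nsmul_eq_mul]
    apply mul_le_mul_of_nonneg_right
    · exact_mod_cast Finset.card_le_univ _
    · positivity
  have hs3 : Fintype.card ι * (C * (δ * S)) = (C * Fintype.card ι * δ) * S := by ring
  have hs4 : (C * Fintype.card ι * δ) * S < κ * S := mul_lt_mul_of_pos_right hδ2 hSpos
  linarith

section Hull

variable {X : Type*} [NormedAddCommGroup X] [NormedSpace ℝ X]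

theorem isCompact_convexJoin {s t : Set X} (hs : IsCompact s) (ht : IsCompact t) :
    IsCompact (convexJoin ℝ s t) := by
  have h1 : convexJoin ℝ s t = (fun p : ℝ × X × X => (1 - p.1) • p.2.1 + p.1 • p.2.2) ''
      (Set.Icc (0 : ℝ) 1 ×ˢ (s ×ˢ t)) := by
    ext z
    rw [mem_convexJoin]
    constructor
    · rintro ⟨a, ha, b, hb, hz⟩
      rw [segment_eq_image] at hz
      obtain ⟨θ, hθ, rfl⟩ := hz
      exact ⟨(θ, a, b), ⟨hθ, ha, hb⟩, rfl⟩
    · rintro ⟨⟨θ, a, b⟩, ⟨hθ, ha, hb⟩, rfl⟩
      refine ⟨a, ha, b, hb, ?_⟩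
      rw [segment_eq_image]
      exact ⟨θ, hθ, rfl⟩
  rw [h1]
  apply (isCompact_Icc.prod (hs.prod ht)).image
  fun_prop

theorem isCompact_hull_iUnion {α : Type*} {S : Set α} (hS : S.Finite) (A : α → Set X)
    (hA : ∀ i ∈ S, IsCompact (A i)) (hAc : ∀ i ∈ S, Convex ℝ (A i)) :
    IsCompact (convexHull ℝ (⋃ i ∈ S, A i)) := by
  induction S, hS using Set.Finite.induction_on with
  | empty => simp
  | @insert a S _ _ ih =>
    have ih' := ih (fun i hi => hA i (Set.mem_insert_of_mem _ hi))
      (fun i hi => hAc i (Set.mem_insert_of_mem _ hi))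
    rw [Set.biUnion_insert]
    have ha := hA a (Set.mem_insert _ _)
    have hac := hAc a (Set.mem_insert _ _)
    rcases (A a).eq_empty_or_nonempty with h1 | h1
    · rw [h1, Set.empty_union]
      exact ih'
    rcases (⋃ i ∈ S, A i).eq_empty_or_nonempty with h2 | h2
    · rw [h2, Set.union_empty, hac.convexHull_eq]
      exact ha
    · rw [convexHull_union h1 h2, hac.convexHull_eq]
      exact isCompact_convexJoin ha ih'

end Hull

/-- every point of the hull has a generating point whose illuminating directions work -/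
theorem exists_gen {G : Set (∀ i, E i)} {x : ∀ i, E i} (hx : x ∈ convexHull ℝ G) :
    ∃ y ∈ G, ∀ f : (∀ i, E i) →L[ℝ] ℝ, (∀ z ∈ convexHull ℝ G, f z ≤ f x) →
      ∀ z ∈ G, f z ≤ f y := by
  rw [_root_.convexHull_eq] at hx
  obtain ⟨κ, s, w, z, hw0, hw1, hz, hxz⟩ := hx
  obtain ⟨i, hi, hwi⟩ : ∃ i ∈ s, 0 < w i := by
    by_contra hcon
    push Not at hcon
    have := Finset.sum_nonpos hcon
    linarith
  refine ⟨z i, hz i hi, ?_⟩
  intro f hf
  have hle : ∀ k ∈ s, f (z k) ≤ f x := fun k hk => hf _ (subset_convexHull ℝ G (hz k hk))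
  have hfx : f x = ∑ k ∈ s, w k * f (z k) := by
    rw [← hxz, Finset.centerMass_eq_of_sum_1 _ _ hw1, map_sum]
    apply Finset.sum_congr rfl
    intro k _
    rw [map_smul, smul_eq_mul]
  have hsum : ∑ k ∈ s, w k * (f x - f (z k)) = 0 := by
    have : ∑ k ∈ s, w k * (f x - f (z k)) = (∑ k ∈ s, w k) * f x - ∑ k ∈ s, w k * f (z k) := by
      rw [Finset.sum_mul, ← Finset.sum_sub_distrib]
      apply Finset.sum_congr rfl
      intro k _
      ring
    rw [this, hw1, ← hfx]
    ring
  have hzero := (Finset.sum_eq_zero_iff_of_nonneg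
    (fun k hk => mul_nonneg (hw0 k hk) (sub_nonneg.mpr (hle k hk)))).mp hsum i hi
  have heq : f (z i) = f x := by
    rcases mul_eq_zero.mp hzero with h | h
    · exact absurd h hwi.ne'
    · linarith
  intro z' hz'
  rw [heq]
  exact hf _ (subset_convexHull ℝ G hz')

theorem interior_nonempty [Nonempty ι] {FF : Set (Finset ι)} {B : ∀ i, Set (E i)}
    (h0 : ∀ i, (0 : E i) ∈ interior (B i)) (hcov : ∀ i, ∃ F ∈ FF, i ∈ F) :
    (interior (convexHull ℝ (gen FF B))).Nonempty := by
  have hcard : (0 : ℝ) < Fintype.card ι := by exact_mod_cast Fintype.card_pos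
  set c : ℝ := (Fintype.card ι : ℝ) with hc
  have hsub : (fun x : ∀ i, E i => c • x) ⁻¹' (Set.pi Set.univ (fun i => interior (B i)))
      ⊆ convexHull ℝ (gen FF B) := by
    intro x hx
    have hx' : ∀ i, c • x i ∈ interior (B i) := fun i => hx i (Set.mem_univ i)
    have h1 : ∀ i, (Pi.single i (c • x i) : ∀ i, E i) ∈ convexHull ℝ (gen FF B) := by
      intro i
      apply subset_convexHull
      obtain ⟨F, hF, hiF⟩ := hcov i
      refine ⟨F, hF, ?_, ?_⟩
      · intro k _
        by_cases hk : k = i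
        · subst hk
          rw [Pi.single_eq_same]
          exact interior_subset (hx' k)
        · rw [Pi.single_eq_of_ne hk]
          exact interior_subset (h0 k)
      · intro k hk
        have hne : k ≠ i := fun h => hk (h ▸ hiF)
        rw [Pi.single_eq_of_ne hne]
    have h2 : x = ∑ i, c⁻¹ • (Pi.single i (c • x i) : ∀ i, E i) := by
      have h3 : ∀ i, c⁻¹ • (Pi.single i (c • x i) : ∀ i, E i) = Pi.single i (x i) := by
        intro i
        rw [← Pi.single_smul, smul_smul, inv_mul_cancel₀ hcard.ne', one_smul]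
      simp only [h3]
      exact (Finset.univ_sum_single x).symm
    rw [h2]
    apply (convex_convexHull ℝ (gen FF B)).sum_mem
    · intro i _
      positivity
    · rw [Finset.sum_const, Finset.card_univ, nsmul_eq_mul, ← hc, mul_inv_cancel₀ hcard.ne']
    · intro i _
      exact h1 i
  have hopen : IsOpen ((fun x : ∀ i, E i => c • x) ⁻¹'
      (Set.pi Set.univ (fun i => interior (B i)))) :=
    (isOpen_set_pi Set.finite_univ (fun i _ => isOpen_interior)).preimage
      (continuous_const_smul c)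
  refine ⟨0, interior_maximal hsub hopen ?_⟩
  intro i _
  simp only [Pi.smul_apply, Pi.zero_apply, smul_zero]
  exact h0 i

theorem isCompact_hull_gen {FF : Set (Finset ι)} {B : ∀ i, Set (E i)}
    (hBconv : ∀ i, Convex ℝ (B i)) (hBc : ∀ i, IsCompact (B i)) :
    IsCompact (convexHull ℝ (gen FF B)) := by
  classical
  have h1 : gen FF B = ⋃ F ∈ FF, Set.pi Set.univ (fun i => if i ∈ F then B i else {0}) := by
    ext x
    simp only [gen, Set.mem_iUnion, Set.mem_pi, Set.mem_univ, forall_true_left]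
    constructor
    · rintro ⟨F, hF, h1, h2⟩
      refine ⟨F, hF, fun i => ?_⟩
      split_ifs with h
      · exact h1 i h
      · exact h2 i h
    · rintro ⟨F, hF, h1⟩
      refine ⟨F, hF, fun i hi => ?_, fun i hi => ?_⟩
      · have := h1 i
        rw [if_pos hi] at this
        exact this
      · have := h1 i
        rw [if_neg hi] at this
        exact this
  rw [h1]
  apply isCompact_hull_iUnion (Set.toFinite FF)
  · intro F _
    apply isCompact_univ_pi
    intro i
    split_ifs
    · exact hBc i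
    · exact isCompact_singleton
  · intro F _
    apply convex_pi
    intro i _
    split_ifs
    · exact hBconv i
    · exact convex_singleton 0

/-- the index set of the directions -/
def dirIdx (D : Finset (Finset ι)) (w : ι → ℕ) :
    Finset ((_ : (_ : Finset ι) × Finset ι) × (∀ i, Fin (w i + 1))) :=
  ((univ : Finset (Finset ι)).sigma (fun L => qset D (upL D L))).sigma
    (fun x => Fintype.piFinset (fun i => if i ∈ x.2 then univ.erase 0 else {0}))

theorem card_dirIdx (D : Finset (Finset ι)) (w : ι → ℕ) :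
    (dirIdx D w).card = ∑ L : Finset ι, ∑ Q ∈ qset D (upL D L), wt w Q := by
  unfold dirIdx
  rw [Finset.card_sigma, Finset.sum_sigma]
  apply Finset.sum_congr rfl
  intro L _
  apply Finset.sum_congr rfl
  intro Q _
  rw [Fintype.card_piFinset]
  unfold wt
  have h1 : ∀ i, (if i ∈ Q then (univ : Finset (Fin (w i + 1))).erase 0 else {0}).card
      = if i ∈ Q then w i else 1 := by
    intro i
    split_ifs
    · rw [Finset.card_erase_of_mem (Finset.mem_univ _), Finset.card_univ, Fintype.card_fin]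
      rfl
    · rw [Finset.card_singleton]
  simp only [h1]
  rw [Finset.prod_ite_mem, Finset.univ_inter]

/-- **Main theorem.** -/
theorem cover_main [Nonempty ι]
    {FF : Set (Finset ι)} {B : ∀ i, Set (E i)}
    (hBconv : ∀ i, Convex ℝ (B i))
    (hBc : ∀ i, IsCompact (B i)) (h0 : ∀ i, (0 : E i) ∈ interior (B i))
    (hcov : ∀ i, ∃ F ∈ FF, i ∈ F) (w : ι → ℕ) (hw : ∀ i, 1 ≤ w i)
    (hN : ∀ i, CovBy (B i) (w i + 1)) :
    CovBy (convexHull ℝ (gen FF B)) (∏ i, (w i + 1)) := by
  classical
  choose t ht using fun i => exists_translates (hN i)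
  choose κ' hκ0 hκ using fun i => exists_kappa (hBc i) (t i) (ht i)
  choose C' hC0 hC using fun i => exists_C (h0 i) (t i)
  obtain ⟨a, -, ha⟩ := Finset.exists_min_image (univ : Finset ι) κ' Finset.univ_nonempty
  obtain ⟨c, -, hc⟩ := Finset.exists_max_image (univ : Finset ι) C' Finset.univ_nonempty
  have hB0 : ∀ i, (0 : E i) ∈ B i := fun i => interior_subset (h0 i)
  have hstar : ∀ i (b : E i) (r : ℝ), b ∈ B i → 0 ≤ r → r ≤ 1 → r • b ∈ B i := by
    intro i b r hb hr0 hr1
    have := (hBconv i) (hB0 i) hb (a := 1 - r) (b := r) (by linarith) hr0 (by ring)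
    simpa using this
  have hκ0' : 0 < κ' a := hκ0 a
  have hC0' : 0 < C' c := hC0 c
  have hκall : ∀ i, ∀ y ∈ B i, ∃ j, ∀ b ∈ B i, y - t i j + κ' a • b ∈ B i := by
    intro i y hy
    obtain ⟨j, hj⟩ := hκ i y hy
    refine ⟨j, fun b hb => ?_⟩
    have h1 := hj ((κ' a / κ' i) • b) (hstar i b _ hb (div_nonneg hκ0'.le (hκ0 i).le)
      ((div_le_one (hκ0 i)).mpr (ha i (Finset.mem_univ i))))
    rw [smul_smul, mul_div_cancel₀ _ (hκ0 i).ne'] at h1
    exact h1
  have hCall : ∀ i j, -((C' c)⁻¹ • t i j) ∈ B i := by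
    intro i j
    have h1 := hstar i _ (C' i / C' c) (hC i j) (div_nonneg (hC0 i).le hC0'.le)
      ((div_le_one hC0').mpr (hc i (Finset.mem_univ i)))
    have h2 : (C' i / C' c) • -((C' i)⁻¹ • t i j) = -((C' c)⁻¹ • t i j) := by
      rw [smul_neg, smul_smul]
      congr 2
      have := (hC0 i).ne'
      field_simp
    rw [h2] at h1
    exact h1
  have hcard : (0 : ℝ) < (Fintype.card ι : ℝ) := by exact_mod_cast Fintype.card_pos
  set n : ℝ := (Fintype.card ι : ℝ) with hn
  have hCn : 0 < C' c * n := mul_pos hC0' hcard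
  set δ : ℝ := κ' a / (C' c * n + κ' a) with hδ
  have hδ0 : 0 < δ := by positivity
  have hδ1 : δ < 1 := by
    rw [hδ, div_lt_one (by positivity)]
    linarith
  have hδ2 : C' c * (Fintype.card ι : ℝ) * δ < κ' a := by
    rw [← hn, hδ, mul_div_assoc', div_lt_iff₀ (by positivity)]
    nlinarith [mul_pos hκ0' hκ0']
  have hcount : (dirIdx (dcl FF) w).card ≤ ∏ i, (w i + 1) := by
    rw [card_dirIdx]
    refine (count_le w hw (dcl FF) (dcl_lower FF)).trans (le_of_eq ?_)
    exact Finset.prod_congr rfl (fun i _ => Nat.add_comm _ _)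
  have hconv := convex_convexHull ℝ (gen FF B)
  have hcomp : IsCompact (convexHull ℝ (gen FF B)) := isCompact_hull_gen hBconv hBc
  obtain ⟨T, hT, hcovT⟩ := Pool.Agent.Illum.cover_of_illum hconv hcomp (dirIdx (dcl FF) w)
    (fun x => dir t δ x.1.2 x.1.1 x.2) (by
      intro x hx
      obtain ⟨y, hy, hyf⟩ := exists_gen hx
      obtain ⟨F, hF, hyF, hy0⟩ := hy
      have hlab : ∀ i, ∃ j, i ∈ F → ∀ b ∈ B i, y i - t i j + κ' a • b ∈ B i := by
        intro i
        by_cases hi : i ∈ F
        · obtain ⟨j, hj⟩ := hκall i (y i) (hyF i hi)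
          exact ⟨j, fun _ => hj⟩
        · exact ⟨0, fun h => absurd h hi⟩
      choose l hl using hlab
      set j : ∀ i, Fin (w i + 1) := fun i => if i ∈ F then l i else 0 with hj
      have hj1 : ∀ i ∈ F, ∀ b ∈ B i, y i - t i (j i) + κ' a • b ∈ B i := by
        intro i hi
        rw [hj]
        simp only
        rw [if_pos hi]
        exact hl i hi
      have hj0 : ∀ i, i ∉ F → j i = 0 := by
        intro i hi
        rw [hj]
        simp only
        rw [if_neg hi]
      refine ⟨⟨⟨lam (dcl FF) (F.filter (fun i => j i = 0)), F.filter (fun i => j i ≠ 0)⟩, j⟩,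
        ?_, ?_⟩
      · unfold dirIdx
        rw [Finset.mem_sigma, Finset.mem_sigma]
        refine ⟨⟨Finset.mem_univ _, ?_⟩, ?_⟩
        · have hFD : F ∈ dcl FF := mem_dcl.mpr ⟨F, hF, Finset.Subset.refl F⟩
          unfold qset
          rw [Finset.mem_filter]
          refine ⟨dcl_lower FF F hFD _ (Finset.filter_subset _ _),
            F.filter (fun i => j i = 0), ?_, ?_, ?_⟩
          · unfold upL
            rw [Finset.mem_filter]
            exact ⟨dcl_lower FF F hFD _ (Finset.filter_subset _ _), Finset.Subset.refl _⟩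
          · rw [Finset.disjoint_left]
            intro i hi hi'
            rw [Finset.mem_filter] at hi hi'
            exact hi.2 hi'.2
          · have : F.filter (fun i => j i ≠ 0) ∪ F.filter (fun i => j i = 0) = F := by
              rw [Finset.union_comm]
              exact Finset.filter_union_filter_not_eq (fun i => j i = 0) F
            rw [this]
            exact hFD
        · rw [Fintype.mem_piFinset]
          intro i
          by_cases hi : i ∈ F.filter (fun i => j i ≠ 0)
          · rw [if_pos hi]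
            rw [Finset.mem_filter] at hi
            exact Finset.mem_erase.mpr ⟨hi.2, Finset.mem_univ _⟩
          · rw [if_neg hi, Finset.mem_singleton]
            by_cases hiF : i ∈ F
            · by_contra hne
              exact hi (Finset.mem_filter.mpr ⟨hiF, hne⟩)
            · exact hj0 i hiF
      · apply Pool.Agent.Illum.illum_of_normals hconv (interior_nonempty h0 hcov)
        intro f hf0 hf
        exact dir_neg hBc h0 hcov t hC0' hCall hδ0 hδ1 hδ2 hF hyF hy0 j hj1 f hf0 (hyf f hf))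
  exact ⟨T, hT.trans hcount, hcovT⟩

end Main

end Pool.Agent.Unc
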